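import Pool.Agent.H40.CNL.Eig
import Pool.Agent.H37.CNL.Stmts

/-!
# Row VE3 of the board `cnl`: the end of the main lemma, over an arbitrary base field
-/

set_option autoImplicit false

namespace Pool.CND

open Finset

open ME2 ME3 in
theorem ve3_thm (hVVG : S_VVG) (hDRH : S_DRH) (hVVV : S_VVV) (hVAS : S_VAS) : S_VE3 := by
  intro p d k L G _ _ _ _ _ _ _ ρ t P Δ z x N C₁ n y u q Y g₁ B hML hY hE hq hF0 hFo hle hgF
  by_contra hcon
  push Not at hcon
  have hcv := hML.cv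
  have hDD := hcv.dd
  have hΔρ := hcv.cm
  have hp : p.Prime := hcv.pr
  have hp1 : 1 < p := hp.one_lt
  have hp3 : 3 ≤ p := by
    have := hML.odd
    omega
  obtain ⟨-, hFix, hordt, hUM, hinj⟩ := hVAS p k L G ρ t P Δ hcv
  have hCL : CharP L p := charP_of_injective_algebraMap (algebraMap k L).injective p
  have : Fact p.Prime := ⟨hp⟩
  obtain ⟨t', ht0, ht'⟩ := exists_eig hDD p hp hCL hcv.dp (y 0) hY.dy0.1
  -- `S(N) ≥ 0`
  have hb : ∀ g : G, g ≠ 1 → 0 ≤ P.b (ρ g) := fun g hg =>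
    le_trans zero_le_one (hUM.pos g (Subgroup.mem_top g) hg)
  have hs0 : 0 ≤ So P ρ N := by
    refine sm_nonneg _ _ (fun w hw => hb w ?_)
    rintro rfl
    exact hw N.one_mem
  set s : ℤ := So P ρ N with hsdef
  -- the element `τ`
  set τ : L := (y 0) ^ p - y 0 with hτdef
  have hτN : ∀ a ∈ N, ρ a τ = τ := by
    refine hY.gen τ ?_ ?_
    · rw [hτdef, map_sub, map_pow, hY.zy]
    · intro i
      rw [hτdef, map_sub, map_pow, hY.ny]
      by_cases hi : i = 0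
      · rw [if_pos hi, add_pow_char, one_pow]
        ring
      · rw [if_neg hi, add_zero]
  have hΔτ : Δ τ = -Δ (y 0) := by
    rw [hτdef, d_sub hDD, d_pow_p hDD p hp]
    ring
  set F : L := τ ^ (p - 1) * Δ τ + Δ g₁ with hFdef
  have hFN : ∀ a ∈ N, ρ a F = F := by
    intro a ha
    rw [hFdef, map_add, map_mul, map_pow, ← hΔρ, ← hΔρ, hτN a ha, hE.gN a ha]
  obtain ⟨F₀, hF₀, hD⟩ := hVVG p k L G ρ t P Δ N F (-(q + C₁)) hcv hML.nor hFN hgF
  rw [← hsdef] at hD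
  have hnum : q + C₁ + p * s < p * C₁ := by
    refine num p q s ((Nat.card N : ℤ) * u) C₁ (by exact_mod_cast hp3) hs0 hY.nu ?_ ?_
    · exact hML.gap
    · linarith
  -- `Λ`
  have hit := hcv.dp
  have hΛF : F - Δ^[p - 1] F = (Δ τ) ^ p := by
    have h1 := hDRH p L t' Δ hp hCL ht0 hDD.add hDD.mul ht' hit τ
    have h2 : Δ^[p - 1] (Δ g₁) = Δ g₁ := by
      rw [← Function.iterate_succ_apply, Nat.succ_eq_add_one, Nat.sub_add_cancel hp1.le]
      exact hit g₁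
    rw [hFdef, it_add hDD, h2]
    linear_combination h1
  have hΔτ0 : Δ τ ≠ 0 := by
    rw [hΔτ]
    exact neg_ne_zero.2 hY.dy0.1
  have hΔτo : P.ord (Δ τ) = -C₁ := by
    rw [hΔτ, P.ord_neg]
    exact hY.dy0.2
  have hΛF0 : (Δ τ) ^ p ≠ 0 := pow_ne_zero _ hΔτ0
  have hΛFo : P.ord ((Δ τ) ^ p) = -(p * C₁) := by
    rw [P.ord_pow hΔτ0, hΔτo]
    ring
  -- one application of `Δ` in `L ^ N`
  have hstep : ∀ (v : L) (m : ℤ), (∀ a ∈ N, ρ a v = v) → P.Ge v m → P.Ge (Δ v) (m - s) := by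
    intro v m hv hvm
    by_cases hv0 : v = 0
    · rw [hv0, d_zero hDD]
      exact P.ge_zero _
    · obtain ⟨_, _, h1, _⟩ := hVVV p k L G ρ t P Δ N hcv hML.nor v hv0 hv
      refine P.ge_mono h1 ?_
      have := hvm.resolve_left hv0
      linarith
  have hiter : ∀ (j : ℕ) (v : L) (m : ℤ), (∀ a ∈ N, ρ a v = v) → P.Ge v m →
      (∀ a ∈ N, ρ a (Δ^[j] v) = Δ^[j] v) ∧ P.Ge (Δ^[j] v) (m - j * s) := by
    intro j v m hv hvm
    induction j with
    | zero => exact ⟨hv, P.ge_mono hvm (by simp)⟩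
    | succ j ih =>
      rw [Function.iterate_succ_apply']
      refine ⟨?_, ?_⟩
      · intro a ha
        rw [← hΔρ, ih.1 a ha]
      · refine P.ge_mono (hstep _ _ ih.1 ih.2) ?_
        push_cast
        linarith
  -- one application of `Δ` in `L ^ G`
  have hstep' : ∀ (v : L) (m : ℤ), (∀ g : G, ρ g v = v) → P.Ge v m →
      (∀ g : G, ρ g (Δ v) = Δ v) ∧ P.Ge (Δ v) m := by
    intro v m hv hvm
    refine ⟨?_, ?_⟩
    · intro g
      rw [← hΔρ, hv g]
    · by_cases hv0 : v = 0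
      · rw [hv0, d_zero hDD]
        exact P.ge_zero _
      · exact P.ge_mono (hcv.base v hv0 hv).1 (hvm.resolve_left hv0)
  have hiter' : ∀ (j : ℕ) (v : L) (m : ℤ), (∀ g : G, ρ g v = v) → P.Ge v m →
      (∀ g : G, ρ g (Δ^[j] v) = Δ^[j] v) ∧ P.Ge (Δ^[j] v) m := by
    intro j v m hv hvm
    induction j with
    | zero => exact ⟨hv, hvm⟩
    | succ j ih =>
      rw [Function.iterate_succ_apply']
      exact hstep' _ _ ih.1 ih.2
  -- the difference
  have hDN : ∀ a ∈ N, ρ a (F - F₀) = F - F₀ := by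
    intro a ha
    rw [map_sub, hFN a ha, hF₀ a]
  have hCast : ((p - 1 : ℕ) : ℤ) = (p : ℤ) - 1 := by
    rw [Nat.cast_sub hp1.le]
    simp
  have hΛD : P.Ge ((F - F₀) - Δ^[p - 1] (F - F₀)) (-(p * C₁) + 1) := by
    have hps : s ≤ p * s := by
      have : (1 : ℤ) ≤ p := by exact_mod_cast hp1.le
      nlinarith
    refine P.ge_sub (P.ge_mono hD (by linarith)) ?_
    refine P.ge_mono (hiter (p - 1) (F - F₀) _ hDN hD).2 ?_
    rw [hCast]
    linarith
  have hΛF₀ : F₀ - Δ^[p - 1] F₀ = (Δ τ) ^ p + -((F - F₀) - Δ^[p - 1] (F - F₀)) := by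
    rw [it_sub hDD, ← hΛF]
    ring
  obtain ⟨hne, hord⟩ := P.ord_add_of_lt hΛF0 (y := -((F - F₀) - Δ^[p - 1] (F - F₀)))
    (by rw [hΛFo]; exact P.ge_neg hΛD)
  rw [← hΛF₀] at hne hord
  have hF₀ge : P.Ge F₀ (-(p * C₁) + 1) := by
    have h1 : F₀ = F - (F - F₀) := by ring
    rw [h1]
    have hps : s ≤ p * s := by
      have : (1 : ℤ) ≤ p := by exact_mod_cast hp1.le
      nlinarith
    refine P.ge_sub ?_ (P.ge_mono hD (by linarith))
    right
    rw [hFo]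
    linarith
  have h2 : P.Ge (F₀ - Δ^[p - 1] F₀) (-(p * C₁) + 1) :=
    P.ge_sub hF₀ge (hiter' (p - 1) F₀ _ hF₀ hF₀ge).2
  have h3 := h2.resolve_left hne
  rw [hord, hΛFo] at h3
  linarith

end Pool.CND
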