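import Pool.Agent.H93.CNK.ME3

/-!
# An eigenvector of a derivation with `Δ ^ p = Δ`, `Δ ≠ 0`
-/

set_option autoImplicit false

namespace Pool.CND

open Finset

open ME2 ME3 in
theorem exists_eig {k L : Type} [Field k] [Field L] [Algebra k L] {t : L} {Δ : L → L}
    (h : DD k t Δ) (p : ℕ) (hp : p.Prime) (hC : CharP L p) (hdp : ∀ x : L, Δ^[p] x = Δ x)
    (w : L) (hw : Δ w ≠ 0) : ∃ s : L, s ≠ 0 ∧ Δ s = s := by
  have := Fact.mk hp
  let φ : ZMod p →+* L := ZMod.castHom (dvd_refl p) L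
  have hmul : ∀ (m : ℕ) (x : L), Δ ((m : L) * x) = (m : L) * Δ x := by
    intro m x
    have h1 : (m : L) = algebraMap k L (m : k) := by simp
    rw [h1, d_smul h]
  have hφ : ∀ (a : ZMod p) (x : L), Δ (φ a * x) = φ a * Δ x := by
    intro a x
    have h1 : φ a = ((a.val : ℕ) : L) := by
      rw [← map_natCast φ, ZMod.natCast_zmod_val]
    rw [h1, hmul]
  let v : (ZMod p)ˣ → L := fun i => ∑ j ∈ range (p - 1), φ (((i⁻¹ : (ZMod p)ˣ) : ZMod p) ^ j) *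
    Δ^[j + 1] w
  have hv : ∀ i : (ZMod p)ˣ, Δ (v i) = φ (i : ZMod p) * v i := by
    intro i
    have h1 : Δ (v i) = ∑ j ∈ range (p - 1), φ (((i⁻¹ : (ZMod p)ˣ) : ZMod p) ^ j) *
        Δ^[j + 2] w := by
      show Δ (∑ j ∈ range (p - 1), φ (((i⁻¹ : (ZMod p)ˣ) : ZMod p) ^ j) * Δ^[j + 1] w) = _
      rw [d_sum h]
      refine Finset.sum_congr rfl (fun j _ => ?_)
      rw [hφ, ← Function.iterate_succ_apply' Δ (j + 1) w]
    have h2 : φ (i : ZMod p) * v i = ∑ j ∈ range (p - 1), φ ((i : ZMod p) *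
        ((i⁻¹ : (ZMod p)ˣ) : ZMod p) ^ j) * Δ^[j + 1] w := by
      show φ (i : ZMod p) * (∑ j ∈ range (p - 1), φ (((i⁻¹ : (ZMod p)ˣ) : ZMod p) ^ j) *
        Δ^[j + 1] w) = _
      rw [Finset.mul_sum]
      refine Finset.sum_congr rfl (fun j _ => ?_)
      rw [map_mul]
      ring
    have h3 : ∑ j ∈ range (p - 1), φ (((i⁻¹ : (ZMod p)ˣ) : ZMod p) ^ j) * Δ^[j + 2] w =
        ∑ j ∈ range (p - 1), φ ((i : ZMod p) * ((i⁻¹ : (ZMod p)ˣ) : ZMod p) ^ (j + 1)) *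
          Δ^[j + 1 + 1] w := by
      refine Finset.sum_congr rfl (fun j _ => ?_)
      have h4 : (i : ZMod p) * ((i⁻¹ : (ZMod p)ˣ) : ZMod p) ^ (j + 1) =
          ((i⁻¹ : (ZMod p)ˣ) : ZMod p) ^ j := by
        rw [pow_succ, mul_comm (_ ^ j), ← mul_assoc, Units.mul_inv, one_mul]
      rw [h4]
    have h5 : ∑ j ∈ range (p - 1 + 1), φ ((i : ZMod p) * ((i⁻¹ : (ZMod p)ˣ) : ZMod p) ^ j) *
        Δ^[j + 1] w = ∑ j ∈ range (p - 1), φ ((i : ZMod p) *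
        ((i⁻¹ : (ZMod p)ˣ) : ZMod p) ^ j) * Δ^[j + 1] w +
        φ ((i : ZMod p) * ((i⁻¹ : (ZMod p)ˣ) : ZMod p) ^ (p - 1)) * Δ^[p - 1 + 1] w :=
      Finset.sum_range_succ _ _
    rw [Finset.sum_range_succ'] at h5
    have h6 : ((i⁻¹ : (ZMod p)ˣ) : ZMod p) ^ (p - 1) = 1 := by
      rw [← Units.val_pow_eq_pow_val, ZMod.units_pow_card_sub_one_eq_one, Units.val_one]
    have h7 : Δ^[p - 1 + 1] w = Δ^[0 + 1] w := by
      rw [Nat.sub_add_cancel hp.one_lt.le, hdp]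
      rfl
    rw [h6, h7, pow_zero] at h5
    rw [h1, h2, h3]
    exact add_right_cancel h5
  have hsum : ∑ i : (ZMod p)ˣ, v i = -Δ w := by
    show ∑ i : (ZMod p)ˣ, ∑ j ∈ range (p - 1), φ (((i⁻¹ : (ZMod p)ˣ) : ZMod p) ^ j) *
      Δ^[j + 1] w = _
    rw [Finset.sum_comm]
    have h1 : ∀ j ∈ range (p - 1), ∑ i : (ZMod p)ˣ, φ (((i⁻¹ : (ZMod p)ˣ) : ZMod p) ^ j) *
        Δ^[j + 1] w = if j = 0 then -Δ w else 0 := by
      intro j hj
      rw [← Finset.sum_mul, ← map_sum]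
      have h2 : ∑ i : (ZMod p)ˣ, ((i⁻¹ : (ZMod p)ˣ) : ZMod p) ^ j =
          ∑ i : (ZMod p)ˣ, ((i : (ZMod p)ˣ) : ZMod p) ^ j :=
        Fintype.sum_equiv (Equiv.inv _) _ _ (fun i => rfl)
      have h3 := FiniteField.sum_pow_units (ZMod p) j
      rw [h2, h3, ZMod.card]
      by_cases hj0 : j = 0
      · rw [if_pos hj0, if_pos (by rw [hj0]; exact dvd_zero _), hj0]
        simp
      · have hnd : ¬ (p - 1) ∣ j := by
          intro hd
          have := Nat.le_of_dvd (Nat.pos_of_ne_zero hj0) hd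
          have := Finset.mem_range.1 hj
          omega
        rw [if_neg hj0, if_neg hnd, map_zero, zero_mul]
    rw [Finset.sum_congr rfl h1, Finset.sum_ite_eq', if_pos]
    rw [Finset.mem_range]
    have := hp.one_lt
    omega
  obtain ⟨i, hi⟩ : ∃ i : (ZMod p)ˣ, v i ≠ 0 := by
    by_contra hcon
    push Not at hcon
    rw [Finset.sum_eq_zero (fun i _ => hcon i)] at hsum
    exact hw (neg_eq_zero.1 hsum.symm)
  -- a power of `v i`
  obtain ⟨m, hm⟩ : ∃ m : ℕ, φ ((m : ℕ) : ZMod p) * φ (i : ZMod p) = 1 ∧ m ≠ 0 := by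
    refine ⟨((i⁻¹ : (ZMod p)ˣ) : ZMod p).val, ?_, ?_⟩
    · rw [ZMod.natCast_zmod_val, ← map_mul, Units.inv_mul, map_one]
    · intro h0
      rw [ZMod.val_eq_zero] at h0
      exact (i⁻¹ : (ZMod p)ˣ).ne_zero h0
  obtain ⟨hm1, hm0⟩ := hm
  obtain ⟨n, rfl⟩ := Nat.exists_eq_succ_of_ne_zero hm0
  refine ⟨v i ^ (n + 1), pow_ne_zero _ hi, ?_⟩
  rw [d_pow h, hv i]
  have h8 : (((n + 1 : ℕ) : ℕ) : L) = φ (((n + 1 : ℕ) : ℕ) : ZMod p) := by simp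
  rw [h8]
  have h9 : φ (((n + 1 : ℕ) : ℕ) : ZMod p) * φ (i : ZMod p) = 1 := hm1
  rw [pow_succ]
  linear_combination (v i ^ n * v i) * h9

end Pool.CND
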